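import Pool.Agent.H26.GalvinDefs

set_option autoImplicit false

universe u

namespace Pool.Agent.H26.Galvin

open Cardinal Set

/-- Monotonicity of the Galvin property. -/
lemma Gal.mono {α : Type u} {F : Filter α} {μ θ θ' : Cardinal.{u}} (h : Gal F μ θ)
    (hle : θ ≤ θ') : Gal F μ θ' := by
  intro S hS hcard
  obtain ⟨S', hS', hS'c⟩ := Cardinal.le_mk_iff_exists_subset.1 (hle.trans hcard.ge)
  obtain ⟨T, hT, hTc, hTF⟩ := h S' (fun s hs => hS s (hS' hs)) hS'c
  exact ⟨T, hT.trans hS', hTc, hTF⟩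

/-- An indexed family witnesses the failure of the Galvin property. -/
lemma not_gal_of_family {α ι : Type u} {F : Filter α} {κ : Cardinal.{u}}
    (hκ : ℵ₀ ≤ κ) (hι : κ < #ι) (A : ι → Set α) (hA : ∀ i, A i ∈ F)
    (hJ : ∀ J : Set ι, #J = κ → (⋂ i ∈ J, A i) ∉ F) : ¬ Gal F κ #ι := by
  intro hG
  -- fibres have size `< κ`
  have hfib : ∀ s : Set α, #(A ⁻¹' {s}) < κ := by
    intro s
    by_contra hcon
    rw [not_lt] at hcon
    obtain ⟨J, hJs, hJc⟩ := Cardinal.le_mk_iff_exists_subset.1 hcon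
    apply hJ J hJc
    have hne : J.Nonempty := by
      rw [Set.nonempty_iff_ne_empty]
      rintro rfl
      rw [Cardinal.mk_emptyCollection] at hJc
      rw [← hJc] at hκ
      exact absurd hκ (not_le.2 Cardinal.aleph0_pos)
    obtain ⟨i, hi⟩ := hne
    have hi' : A i = s := hJs hi
    have : A i ⊆ ⋂ j ∈ J, A j := by
      intro x hx
      simp only [Set.mem_iInter]
      intro j hj
      have hj' : A j = s := hJs hj
      rw [hj', ← hi']
      exact hx
    exact F.mem_of_superset (hA i) this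
  -- hence the range has full size
  have hrange : #(Set.range A) = #ι := by
    apply le_antisymm Cardinal.mk_range_le
    by_contra hcon
    rw [not_le] at hcon
    have h1 : #ι ≤ #(Set.range A) * κ := by
      have : #ι = Cardinal.sum (fun s : Set.range A => #(A ⁻¹' {s.1})) := by
        rw [← Cardinal.mk_sigma]
        refine Cardinal.mk_congr ?_
        exact
          { toFun := fun i => ⟨⟨A i, i, rfl⟩, ⟨i, rfl⟩⟩
            invFun := fun p => p.2.1
            left_inv := fun i => rfl
            right_inv := by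
              rintro ⟨⟨s, hs⟩, ⟨i, hi⟩⟩
              have hi' : A i = s := hi
              subst hi'
              rfl }
      rw [this]
      calc Cardinal.sum (fun s : Set.range A => #(A ⁻¹' {s.1}))
          ≤ Cardinal.sum (fun _ : Set.range A => κ) :=
            Cardinal.sum_le_sum _ _ (fun s => (hfib s.1).le)
        _ = #(Set.range A) * κ := by simp
    have h2 : #(Set.range A) * κ < #ι := by
      have h3 : ℵ₀ ≤ #ι := hκ.trans hι.le
      exact Cardinal.mul_lt_of_lt h3 hcon hι
    exact absurd h1 (not_le.2 h2)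
  obtain ⟨T, hTS, hTc, hTF⟩ := hG (Set.range A) (by rintro _ ⟨i, rfl⟩; exact hA i) hrange
  -- choose representatives
  choose g hg using fun t : T => hTS t.2
  have hginj : Function.Injective g := by
    intro t t' h
    apply Subtype.ext
    rw [← hg t, ← hg t', h]
  apply hJ (Set.range g)
  · rw [Cardinal.mk_range_eq g hginj, hTc]
  · refine F.mem_of_superset hTF ?_
    intro x hx
    simp only [Set.mem_iInter]
    rintro _ ⟨t, rfl⟩
    rw [hg t]
    exact hx t.1 t.2

section FineNormal

variable {κ : Cardinal.{u}} {X : Type u} {U : Ultrafilter (PK κ X)}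

/-- Diagonal intersections: if `A a ∈ U` for each `a`, then `{x | ∀ a ∈ x, x ∈ A a} ∈ U`. -/
lemma IsFineNormal.diag (hU : IsFineNormal κ X U) (A : X → Set (PK κ X))
    (hA : ∀ a, A a ∈ U) : {x : PK κ X | ∀ a ∈ x.1, x ∈ A a} ∈ U := by
  classical
  by_contra hcon
  have hc : {x : PK κ X | ∀ a ∈ x.1, x ∈ A a}ᶜ ∈ U := Ultrafilter.compl_mem_iff_notMem.2 hcon
  -- there is a point of `X`
  have hne : Nonempty X := by
    obtain ⟨x, hx⟩ := U.nonempty_of_mem hc
    simp only [Set.mem_compl_iff, Set.mem_ofPred_eq, not_forall] at hx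
    obtain ⟨a, _, _⟩ := hx
    exact ⟨a⟩
  let f : PK κ X → X := fun x => if h : ∃ a ∈ x.1, x ∉ A a then h.choose else hne.some
  have hf : ∀ x ∈ {x : PK κ X | ∀ a ∈ x.1, x ∈ A a}ᶜ, f x ∈ x.1 ∧ x ∉ A (f x) := by
    intro x hx
    have h : ∃ a ∈ x.1, x ∉ A a := by
      simp only [Set.mem_compl_iff, Set.mem_ofPred_eq, not_forall] at hx
      obtain ⟨a, h1, h2⟩ := hx
      exact ⟨a, h1, h2⟩
    have : f x = h.choose := dif_pos h
    rw [this]
    exact h.choose_spec
  obtain ⟨a, ha⟩ := hU.normal f (U.mem_of_superset hc (fun x hx => (hf x hx).1))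
  have h3 := Filter.inter_mem (Filter.inter_mem hc ha) (hA a)
  obtain ⟨x, ⟨hx1, hx2⟩, hx3⟩ := U.nonempty_of_mem h3
  have h4 := (hf x hx1).2
  have hx2' : f x = a := hx2
  rw [hx2'] at h4
  exact h4 hx3

/-- `U`-almost all `x` are closed under a given function. -/
lemma IsFineNormal.closed (hU : IsFineNormal κ X U) (f : X → X) :
    {x : PK κ X | ∀ a ∈ x.1, f a ∈ x.1} ∈ U :=
  hU.diag (fun a => {x | f a ∈ x.1}) (fun a => hU.fine (f a))

/-- A family of functions any `κ` many of which are pairwise different at a common point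
gives a failure of the Galvin property. -/
lemma IsFineNormal.not_gal_of_functions (hU : IsFineNormal κ X U) (hκ : ℵ₀ ≤ κ)
    {ι : Type u} (hι : κ < #ι) (f : ι → X → X)
    (hf : ∀ J : Set ι, #J = κ → ∃ a : X, Set.InjOn (fun i => f i a) J) :
    ¬ Gal (U : Filter (PK κ X)) κ #ι := by
  refine not_gal_of_family hκ hι (fun i => {x : PK κ X | ∀ a ∈ x.1, f i a ∈ x.1})
    (fun i => hU.closed (f i)) ?_
  intro J hJ hmem
  obtain ⟨a, ha⟩ := hf J hJ
  obtain ⟨x, hx1, hx2⟩ := U.nonempty_of_mem (Filter.inter_mem hmem (hU.fine a))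
  simp only [Set.mem_iInter, Set.mem_ofPred_eq] at hx1 hx2
  have hsub : (fun i => f i a) '' J ⊆ x.1 := by
    rintro _ ⟨i, hi, rfl⟩
    exact hx1 i hi a hx2
  have h1 : #((fun i => f i a) '' J) = κ := by
    rw [Cardinal.mk_image_eq_of_injOn _ _ ha, hJ]
  have h2 := Cardinal.mk_le_mk_of_subset hsub
  rw [h1] at h2
  exact absurd x.2 (not_lt.2 h2)

end FineNormal

section Order

/-- A type of cardinality `succ κ` carries a well-order all of whose proper initial segments
have cardinality `≤ κ`. -/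
lemma exists_wellOrder (κ : Cardinal.{u}) (X : Type u) (hX : #X = Order.succ κ) :
    ∃ (i : LinearOrder X), @WellFoundedLT X i.toLT ∧ ∀ a : X, #{b : X | @LT.lt X i.toLT b a} ≤ κ := by
  classical
  obtain ⟨r, wo, hr⟩ := Cardinal.exists_ord_eq X
  let i : LinearOrder X := linearOrderOfSTO r
  refine ⟨i, ⟨wo.wf⟩, fun a => ?_⟩
  have h1 : (Ordinal.typein r a).card < #X := by
    rw [← Cardinal.lt_ord, hr]
    exact Ordinal.typein_lt_type r a
  have h2 : #{b : X | r b a} = (Ordinal.typein r a).card := by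
    rw [Ordinal.card_typein]
    rfl
  rw [hX, Order.lt_succ_iff] at h1
  rw [← h2] at h1
  exact h1

variable {κ : Cardinal.{u}} {X : Type u}

/-- Fewer than `succ κ` many points are strictly bounded. -/
lemma exists_bound [LinearOrder X] (hκ : ℵ₀ ≤ κ) (hX : #X = Order.succ κ)
    (hseg : ∀ a : X, #{b : X | b < a} ≤ κ) (D : Set X) (hD : #D ≤ κ) :
    ∃ ρ : X, ∀ d ∈ D, d < ρ := by
  by_contra hcon
  push Not at hcon
  have h1 : (Set.univ : Set X) ⊆ ⋃ d : D, ({b : X | b < d.1} ∪ {d.1}) := by
    intro ρ _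
    obtain ⟨d, hd, hle⟩ := hcon ρ
    rw [Set.mem_iUnion]
    refine ⟨⟨d, hd⟩, ?_⟩
    rcases lt_or_eq_of_le hle with h | h
    · exact Or.inl h
    · exact Or.inr h
  have h2 : #(⋃ d : D, ({b : X | b < d.1} ∪ {d.1}) : Set X) ≤ κ := by
    refine (Cardinal.mk_iUnion_le _).trans ?_
    refine (mul_le_mul' hD (ciSup_le' (a := κ) ?_)).trans (Cardinal.mul_eq_self hκ).le
    intro d
    refine (Cardinal.mk_union_le _ _).trans ?_
    rw [Cardinal.mk_singleton]
    exact (add_le_add (hseg d.1) (Cardinal.one_le_aleph0.trans hκ)).trans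
      (Cardinal.add_eq_self hκ).le
  have h3 := (Cardinal.mk_le_mk_of_subset h1).trans h2
  rw [Cardinal.mk_univ, hX] at h3
  exact absurd h3 (not_le.2 (Order.lt_succ κ))

/-- Eventually different functions: on a type `X` of size `succ κ` there is a family, indexed
by a type of size `succ (succ κ)`, of functions `X → X` any two of which agree on at most `κ`
many points. -/
lemma exists_eventually_different (hκ : ℵ₀ ≤ κ) (hX : #X = Order.succ κ) :
    ∃ (ι : Type u) (f : ι → X → X), #ι = Order.succ (Order.succ κ) ∧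
      ∀ i j, i ≠ j → #{a : X | f i a = f j a} ≤ κ := by
  classical
  obtain ⟨ordX, -, hseg⟩ := exists_wellOrder κ X hX
  -- the index type
  let ι : Type u := (Order.succ (Order.succ κ)).out
  have hι : #ι = Order.succ (Order.succ κ) := Cardinal.mk_out _
  obtain ⟨ordι, hwf, hsegι⟩ := exists_wellOrder (Order.succ κ) ι hι
  -- injections of the initial segments of ι into X
  have hemb : ∀ i : ι, ∃ e : ι → X, Set.InjOn e {j : ι | j < i} := by
    intro i
    have h1 : #{j : ι | j < i} ≤ #X := by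
      rw [hX]; exact hsegι i
    obtain ⟨e⟩ := h1
    have hne : Nonempty X := by
      rw [← Cardinal.mk_ne_zero_iff, hX]
      exact (Order.succ_ne_bot κ)
    refine ⟨fun j => if h : j < i then e ⟨j, h⟩ else hne.some, ?_⟩
    intro j hj k hk hjk
    have hj' : j < i := hj
    have hk' : k < i := hk
    simp only [dif_pos hj', dif_pos hk'] at hjk
    have := e.injective hjk
    exact congrArg Subtype.val this
  choose e he using hemb
  -- the bad values are few
  have hfew : ∀ (i : ι) (a : X) (g : ι → X), ∃ y : X, y ∉ g '' {j : ι | j < i ∧ e i j ≤ a} := by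
    intro i a g
    by_contra hcon
    push Not at hcon
    have h1 : (Set.univ : Set X) ⊆ g '' {j : ι | j < i ∧ e i j ≤ a} := fun y _ => hcon y
    have h2 : #{j : ι | j < i ∧ e i j ≤ a} ≤ κ := by
      have h3 : #{j : ι | j < i ∧ e i j ≤ a} = #(e i '' {j : ι | j < i ∧ e i j ≤ a}) := by
        rw [Cardinal.mk_image_eq_of_injOn]
        exact (he i).mono (fun j hj => hj.1)
      rw [h3]
      have h4 : e i '' {j : ι | j < i ∧ e i j ≤ a} ⊆ {b : X | b < a} ∪ {a} := by
        rintro _ ⟨j, ⟨_, hj⟩, rfl⟩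
        rcases lt_or_eq_of_le hj with h | h
        · exact Or.inl h
        · exact Or.inr h
      refine (Cardinal.mk_le_mk_of_subset h4).trans ?_
      refine (Cardinal.mk_union_le _ _).trans ?_
      rw [Cardinal.mk_singleton]
      exact (add_le_add (hseg a) (Cardinal.one_le_aleph0.trans hκ)).trans
        (Cardinal.add_eq_self hκ).le
    have h5 := (Cardinal.mk_le_mk_of_subset h1).trans (Cardinal.mk_image_le.trans h2)
    rw [Cardinal.mk_univ, hX] at h5
    exact absurd h5 (not_le.2 (Order.lt_succ κ))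
  -- recursion
  let F : (i : ι) → ((j : ι) → j < i → (X → X)) → (X → X) := fun i rec a =>
    (hfew i a (fun j => if h : j < i then rec j h a else a)).choose
  let f : ι → X → X := hwf.wf.fix F
  have hf : ∀ i a, f i a ∉ (fun j => if j < i then f j a else a) ''
      {j : ι | j < i ∧ e i j ≤ a} := by
    intro i a
    have h1 : f i = F i (fun j _ => f j) := hwf.wf.fix_eq F i
    rw [h1]
    exact (hfew i a (fun j => if h : j < i then f j a else a)).choose_spec
  have key : ∀ i j, j < i → #{a : X | f i a = f j a} ≤ κ := by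
    intro i j hji
    refine (Cardinal.mk_le_mk_of_subset ?_).trans (hseg (e i j))
    intro a ha
    have ha' : f i a = f j a := ha
    show a < e i j
    by_contra hcon
    rw [not_lt] at hcon
    apply hf i a
    refine ⟨j, ⟨hji, hcon⟩, ?_⟩
    show (if j < i then f j a else a) = f i a
    rw [if_pos hji, ha']
  refine ⟨ι, f, hι, ?_⟩
  intro i j hij
  rcases lt_or_gt_of_ne hij with h | h
  · have := key j i h
    have h' : {a : X | f i a = f j a} = {a : X | f j a = f i a} := by
      ext a; exact eq_comm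
    rw [h']
    exact this
  · exact key i j h

end Order

/-- **ZFC theorem.** Every fine normal ultrafilter over `P_κ(κ⁺)` fails `Gal(U, κ, κ⁺⁺)`. -/
theorem not_gal_succ_succ {κ : Cardinal.{u}} (hκ : ℵ₀ ≤ κ) {X : Type u}
    (hX : #X = Order.succ κ) {U : Ultrafilter (PK κ X)} (hU : IsFineNormal κ X U) :
    ¬ Gal (U : Filter (PK κ X)) κ (Order.succ (Order.succ κ)) := by
  classical
  obtain ⟨ι, f, hι, hf⟩ := exists_eventually_different hκ hX
  rw [← hι]
  refine hU.not_gal_of_functions hκ ?_ f ?_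
  · rw [hι]
    exact (Order.lt_succ κ).trans (Order.lt_succ _)
  · intro J hJ
    -- the union of the agreement sets has size ≤ κ
    let D : Set X := ⋃ p : J × J, {a : X | p.1.1 ≠ p.2.1 ∧ f p.1.1 a = f p.2.1 a}
    have hD : #D ≤ κ := by
      refine (Cardinal.mk_iUnion_le _).trans ?_
      have h1 : #(J × J) ≤ κ := by
        rw [Cardinal.mk_prod, Cardinal.lift_id, hJ]
        exact (Cardinal.mul_eq_self hκ).le
      refine (mul_le_mul' h1 (ciSup_le' (a := κ) ?_)).trans (Cardinal.mul_eq_self hκ).le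
      rintro ⟨i, j⟩
      by_cases hij : i.1 = j.1
      · have : {a : X | i.1 ≠ j.1 ∧ f i.1 a = f j.1 a} = ∅ := by
          ext a
          simp [hij]
        show #{a : X | i.1 ≠ j.1 ∧ f i.1 a = f j.1 a} ≤ κ
        rw [this, Cardinal.mk_emptyCollection]
        exact zero_le
      · exact (Cardinal.mk_le_mk_of_subset (fun a ha => ha.2)).trans (hf i.1 j.1 hij)
    have hne : ∃ a : X, a ∉ D := by
      by_contra hcon
      push Not at hcon
      have h1 : (Set.univ : Set X) ⊆ D := fun y _ => hcon y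
      have h5 := (Cardinal.mk_le_mk_of_subset h1).trans hD
      rw [Cardinal.mk_univ, hX] at h5
      exact absurd h5 (not_le.2 (Order.lt_succ κ))
    obtain ⟨a, ha⟩ := hne
    refine ⟨a, ?_⟩
    intro i hi j hj hij
    by_contra hne
    apply ha
    exact Set.mem_iUnion.2 ⟨(⟨i, hi⟩, ⟨j, hj⟩), hne, hij⟩

/-- **ZFC theorem.** For a fine normal ultrafilter over `P_κ(κ⁺)`, a failure of `Gal(U, κ, 2^κ)`
gives a failure of `Gal(U, κ, 2^{κ⁺})`. -/
theorem not_gal_two_power_succ {κ : Cardinal.{u}} (hκ : ℵ₀ ≤ κ) {X : Type u}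
    (hX : #X = Order.succ κ) {U : Ultrafilter (PK κ X)} (hU : IsFineNormal κ X U)
    (hG : ¬ Gal (U : Filter (PK κ X)) κ (2 ^ κ)) :
    ¬ Gal (U : Filter (PK κ X)) κ (2 ^ Order.succ κ) := by
  classical
  unfold Gal at hG
  push Not at hG
  obtain ⟨S, hSU, hSc, hST⟩ := hG
  obtain ⟨ordX, -, hseg⟩ := exists_wellOrder κ X hX
  -- code the bounded sets by members of `S`
  have hcode : #(Σ a : X, Set {b : X | b < a}) ≤ #S := by
    rw [Cardinal.mk_sigma, hSc]
    calc Cardinal.sum (fun a : X => #(Set {b : X | b < a}))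
        ≤ Cardinal.sum (fun _ : X => (2 : Cardinal.{u}) ^ κ) := by
          refine Cardinal.sum_le_sum _ _ (fun a => ?_)
          rw [Cardinal.mk_set]
          exact Cardinal.power_le_power_left two_ne_zero (hseg a)
      _ = #X * 2 ^ κ := by simp
      _ ≤ 2 ^ κ * 2 ^ κ := by
          refine mul_le_mul_left (?_ : #X ≤ 2 ^ κ) _
          rw [hX]
          exact Order.succ_le_of_lt (Cardinal.cantor κ)
      _ = 2 ^ κ := Cardinal.mul_eq_self (hκ.trans (Cardinal.cantor κ).le)
  obtain ⟨c⟩ := hcode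
  -- the family, indexed by `Set X`
  have hidx : #(Set X) = 2 ^ Order.succ κ := by rw [Cardinal.mk_set, hX]
  rw [← hidx]
  refine not_gal_of_family hκ ?_
    (fun B : Set X => {x : PK κ X | ∀ a ∈ x.1, x ∈ (c ⟨a, {b | b.1 ∈ B}⟩ : Set (PK κ X))}) ?_ ?_
  · rw [hidx]
    exact (Order.lt_succ κ).trans (Cardinal.cantor _)
  · intro B
    exact hU.diag (fun a => (c ⟨a, {b | b.1 ∈ B}⟩ : Set (PK κ X))) (fun a => hSU _ (c _).2)
  · intro J hJ hmem
    -- a bound below which all members of `J` differ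
    have hdiff : ∀ p : J × J, p.1 ≠ p.2 → ∃ d : X, ¬ (d ∈ p.1.1 ↔ d ∈ p.2.1) := by
      intro p hp
      by_contra hcon
      push Not at hcon
      exact hp (Subtype.ext (Set.ext hcon))
    have hXne : Nonempty X := by
      rw [← Cardinal.mk_ne_zero_iff, hX]
      exact (Order.succ_ne_bot κ)
    let d : J × J → X := fun p => if h : p.1 ≠ p.2 then (hdiff p h).choose else hXne.some
    have hd : ∀ p : J × J, p.1 ≠ p.2 → ¬ (d p ∈ p.1.1 ↔ d p ∈ p.2.1) := by
      intro p hp
      have : d p = (hdiff p hp).choose := dif_pos hp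
      rw [this]
      exact (hdiff p hp).choose_spec
    obtain ⟨ρ, hρ⟩ := exists_bound hκ hX hseg (Set.range d) (by
      refine Cardinal.mk_range_le.trans ?_
      rw [Cardinal.mk_prod, Cardinal.lift_id, hJ]
      exact (Cardinal.mul_eq_self hκ).le)
    let g : Set X → Set (PK κ X) := fun B => (c ⟨ρ, {b | b.1 ∈ B}⟩ : Set (PK κ X))
    have hginj : Set.InjOn g J := by
      intro B hB B' hB' hBB'
      by_contra hne
      have hne' : (⟨B, hB⟩ : J) ≠ ⟨B', hB'⟩ := fun h => hne (congrArg Subtype.val h)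
      have h1 := c.injective (Subtype.ext hBB')
      have h2 : ({b | b.1 ∈ B} : Set {b : X | b < ρ}) = {b | b.1 ∈ B'} := by
        simpa using h1
      have h3 := hd (⟨B, hB⟩, ⟨B', hB'⟩) hne'
      apply h3
      have h4 : d (⟨B, hB⟩, ⟨B', hB'⟩) < ρ := hρ _ ⟨_, rfl⟩
      have h5 := Set.ext_iff.1 h2 ⟨_, h4⟩
      exact h5
    have hT := hST (g '' J) (by
      rintro _ ⟨B, _, rfl⟩
      exact (c _).2) (by
      rw [Cardinal.mk_image_eq_of_injOn _ _ hginj, hJ])
    apply hT
    refine Filter.mem_of_superset (Filter.inter_mem hmem (hU.fine ρ)) ?_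
    rintro x ⟨hx1, hx2⟩
    rintro _ ⟨B, hB, rfl⟩
    simp only [Set.mem_iInter, Set.mem_ofPred_eq] at hx1 hx2
    exact hx1 B hB ρ hx2

end Pool.Agent.H26.Galvin
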