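import Mathlib

set_option autoImplicit false

universe u

namespace Pool.Agent.H26.Galvin

open Cardinal Set

/-- `PK κ X` is the set `P_κ(X)` of all subsets of `X` of cardinality `< κ`. -/
abbrev PK (κ : Cardinal.{u}) (X : Type u) : Type u := {x : Set X // #x < κ}

/-- `U` is a fine normal (`κ`-complete) ultrafilter over `P_κ(X)`. -/
structure IsFineNormal (κ : Cardinal.{u}) (X : Type u) (U : Ultrafilter (PK κ X)) : Prop where
  /-- `U` is `κ`-complete. -/
  complete : ∀ S : Set (Set (PK κ X)), #S < κ → (∀ s ∈ S, s ∈ U) → ⋂₀ S ∈ U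
  /-- `U` is fine. -/
  fine : ∀ a : X, {x : PK κ X | a ∈ x.1} ∈ U
  /-- `U` is normal: a function regressive on a set in `U` is constant on a set in `U`. -/
  normal : ∀ f : PK κ X → X, {x : PK κ X | f x ∈ x.1} ∈ U →
    ∃ a : X, {x : PK κ X | f x = a} ∈ U

/-- The Galvin property `Gal(F, μ, θ)`: among any `θ` many (distinct) members of `F` there are
`μ` many whose intersection is in `F`. -/
def Gal {α : Type u} (F : Filter α) (μ θ : Cardinal.{u}) : Prop :=
  ∀ S : Set (Set α), (∀ s ∈ S, s ∈ F) → #S = θ → ∃ T ⊆ S, #T = μ ∧ ⋂₀ T ∈ F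

end Pool.Agent.H26.Galvin
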