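import Mathlib

set_option autoImplicit false

universe u v

namespace Pool.Agent.H26.Kervaire

open Monoid

/-- The exponent homomorphism `η_i : G * F → ℤ`, killing `G` and sending `t_k` to `δ_{ik}`. -/
abbrev expHom (G : Type u) [Group G] (n : ℕ) (i : Fin n) :
    Coprod G (FreeGroup (Fin n)) →* Multiplicative ℤ :=
  Coprod.lift (1 : G →* Multiplicative ℤ)
    (FreeGroup.lift (fun k : Fin n => if k = i then Multiplicative.ofAdd (1 : ℤ) else 1))

/-- A homomorphism `δ : G → W` reflects products of conjugacy classes. -/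
def Reflecting {G : Type u} [Group G] {W : Type v} [Group W] (δ : G →* W) : Prop :=
  ∀ (r : ℕ) (g : Fin r → G),
    (∃ k : Fin r → W, (List.ofFn (fun i => k i * δ (g i) * (k i)⁻¹)).prod = 1) →
    ∃ x : Fin r → G, (List.ofFn (fun i => x i * g i * (x i)⁻¹)).prod = 1

/-- If the system `w` has a solution in `W` (over `δ : G → W`) and `δ` reflects products of
conjugacy classes, then so does the map of `G` to the group presented by the system. -/
lemma of_solution {G : Type u} [Group G] {W : Type v} [Group W] {n : ℕ}
    (w : Fin n → Coprod G (FreeGroup (Fin n))) (δ : G →* W) (hδ : Reflecting δ)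
    (τ : Fin n → W) (hτ : ∀ j, Coprod.lift δ (FreeGroup.lift τ) (w j) = 1)
    (r : ℕ) (g : Fin r → G)
    (h : ∃ h : Fin r → (Coprod G (FreeGroup (Fin n)) ⧸ Subgroup.normalClosure (Set.range w)),
      (List.ofFn (fun i => h i *
        QuotientGroup.mk' (Subgroup.normalClosure (Set.range w)) (Coprod.inl (g i)) *
          (h i)⁻¹)).prod = 1) :
    ∃ x : Fin r → G, (List.ofFn (fun i => x i * g i * (x i)⁻¹)).prod = 1 := by
  obtain ⟨h, hh⟩ := h
  let Φ : (Coprod G (FreeGroup (Fin n)) ⧸ Subgroup.normalClosure (Set.range w)) →* W :=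
    QuotientGroup.lift (Subgroup.normalClosure (Set.range w)) (Coprod.lift δ (FreeGroup.lift τ))
      (by
        intro x hx
        have : Subgroup.normalClosure (Set.range w) ≤
            (Coprod.lift δ (FreeGroup.lift τ)).ker := by
          apply Subgroup.normalClosure_le_normal
          rintro _ ⟨j, rfl⟩
          exact hτ j
        exact this hx)
  apply hδ r g
  refine ⟨fun i => Φ (h i), ?_⟩
  have := congrArg Φ hh
  rw [map_list_prod, List.map_ofFn, map_one] at this
  rw [← this]
  congr 2
  funext i
  simp only [Function.comp, map_mul, map_inv]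
  congr 2

section Wreath

variable {G : Type u} [Group G] {Q : Type v} [Group Q]

/-- The right translation action of `Q` on functions `Q → G`. -/
def transAut (G : Type u) [Group G] (Q : Type v) [Group Q] : Q →* MulAut (Q → G) where
  toFun q :=
    { toFun := fun f x => f (x * q)
      invFun := fun f x => f (x * q⁻¹)
      left_inv := fun f => by funext x; simp
      right_inv := fun f => by funext x; simp
      map_mul' := fun f g => rfl }
  map_one' := by ext f x; simp
  map_mul' p q := by ext f x; simp [mul_assoc]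

/-- The constant (diagonal) embedding of `G` into the unrestricted wreath product. -/
def diag (G : Type u) [Group G] (Q : Type v) [Group Q] :
    G →* (Q → G) ⋊[transAut G Q] Q :=
  (SemidirectProduct.inl).comp (Pi.constMonoidHom Q G)

lemma conj_diag (k : (Q → G) ⋊[transAut G Q] Q) (g : G) :
    k * diag G Q g * k⁻¹ = SemidirectProduct.inl (fun x => k.left x * g * (k.left x)⁻¹) := by
  apply SemidirectProduct.ext
  · funext x
    rw [SemidirectProduct.mul_left, SemidirectProduct.mul_left, SemidirectProduct.mul_right,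
      SemidirectProduct.inv_left, SemidirectProduct.left_inl]
    show k.left x * g * ((k.left)⁻¹ (x * (k.right * 1) * (k.right)⁻¹)) = _
    rw [mul_one, mul_assoc x, mul_inv_cancel, mul_one]
    rfl
  · rw [SemidirectProduct.mul_right, SemidirectProduct.mul_right, SemidirectProduct.inv_right,
      SemidirectProduct.right_inl]
    show k.right * 1 * k.right⁻¹ = 1
    rw [mul_one, mul_inv_cancel]

lemma diag_reflecting : Reflecting (diag G Q) := by
  intro r g ⟨k, hk⟩
  refine ⟨fun i => (k i).left 1, ?_⟩
  simp only [conj_diag] at hk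
  have h1 : (List.ofFn fun i => (SemidirectProduct.inl
      (fun x => (k i).left x * g i * ((k i).left x)⁻¹) : (Q → G) ⋊[transAut G Q] Q)) =
      (List.ofFn fun i => (fun x => (k i).left x * g i * ((k i).left x)⁻¹)).map
        (SemidirectProduct.inl : (Q → G) →* _) := by
    rw [List.map_ofFn]; rfl
  rw [h1, ← map_list_prod] at hk
  have h2 := SemidirectProduct.inl_injective (hk.trans (map_one _).symm)
  have h3 := congrFun h2 1
  rw [Pi.list_prod_apply, List.map_ofFn] at h3
  exact h3

/-- The Kaloujnine-Krasner homomorphism: for an injective homomorphism `ι : A → A'` of abelian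
groups and `j : A → G`, a homomorphism of `A'` into the wreath product `G ≀ (A' / A)` which
maps `ι a` to the constant `j a`. -/
lemma exists_kk {A : Type u} [CommGroup A] {A' : Type v} [CommGroup A'] (ι : A →* A')
    (hι : Function.Injective ι) (j : A →* G) :
    ∃ κ : A' →* ((A' ⧸ ι.range) → G) ⋊[transAut G (A' ⧸ ι.range)] (A' ⧸ ι.range),
      ∀ a, κ (ι a) = diag G (A' ⧸ ι.range) (j a) := by
  classical
  let s : A' ⧸ ι.range → A' := Quotient.out
  have hs : ∀ q : A' ⧸ ι.range, (QuotientGroup.mk (s q) : A' ⧸ ι.range) = q :=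
    fun q => Quotient.out_eq q
  have hmem : ∀ (x : A') (q : A' ⧸ ι.range),
      ∃ a : A, ι a = s q * x * (s (q * (QuotientGroup.mk x)))⁻¹ := by
    intro x q
    have : s q * x * (s (q * (QuotientGroup.mk x)))⁻¹ ∈ ι.range := by
      rw [← QuotientGroup.eq_one_iff]
      rw [QuotientGroup.mk_mul, QuotientGroup.mk_mul, QuotientGroup.mk_inv, hs, hs]
      exact mul_inv_cancel _
    exact this
  choose f hf using hmem
  have hfmul : ∀ x y q, f (x * y) q = f x q * f y (q * (QuotientGroup.mk x)) := by
    intro x y q
    apply hι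
    rw [map_mul, hf, hf, hf, QuotientGroup.mk_mul, ← mul_assoc q]
    group
  let κ : A' →* ((A' ⧸ ι.range) → G) ⋊[transAut G (A' ⧸ ι.range)] (A' ⧸ ι.range) :=
    MonoidHom.mk' (fun x => ⟨fun q => j (f x q), QuotientGroup.mk x⟩) (by
      intro x y
      apply SemidirectProduct.ext
      · funext q
        simp only [SemidirectProduct.mul_left, Pi.mul_apply]
        rw [hfmul, map_mul]
        rfl
      · rfl)
  refine ⟨κ, fun a => ?_⟩
  have hq : (QuotientGroup.mk (ι a) : A' ⧸ ι.range) = 1 := by
    rw [QuotientGroup.eq_one_iff]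
    exact ⟨a, rfl⟩
  apply SemidirectProduct.ext
  · funext q
    show j (f (ι a) q) = j a
    congr 1
    apply hι
    rw [hf, hq, mul_one]
    rw [mul_right_comm, mul_inv_cancel, one_mul]
  · show (QuotientGroup.mk (ι a) : A' ⧸ ι.range) = 1
    exact hq

end Wreath

section Abelian

/-- A nonsingular system over an abelian group has a solution in an abelian overgroup. -/
lemma exists_abelian_solution {A : Type u} [CommGroup A] {n : ℕ}
    (w : Fin n → Coprod A (FreeGroup (Fin n)))
    (hdet : (Matrix.of (fun i j : Fin n =>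
      Multiplicative.toAdd (expHom A n i (w j)))).det ≠ 0) :
    ∃ (A' : Type u) (_ : CommGroup A') (ι : A →* A') (τ : Fin n → A'),
      Function.Injective ι ∧ ∀ j, Coprod.lift ι (FreeGroup.lift τ) (w j) = 1 := by
  classical
  let θ : Coprod A (FreeGroup (Fin n)) →* A × (Fin n → Multiplicative ℤ) :=
    Coprod.lift (MonoidHom.inl _ _)
      (FreeGroup.lift (fun k => ((1 : A), Pi.mulSingle k (Multiplicative.ofAdd (1 : ℤ)))))
  let Λ : (Fin n → Multiplicative ℤ) →* A × (Fin n → Multiplicative ℤ) :=
    ∏ j, (zpowersHom _ (θ (w j))).comp (Pi.evalMonoidHom (fun _ => Multiplicative ℤ) j)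
  have hΛ : ∀ l, Λ l = ∏ j, θ (w j) ^ (Multiplicative.toAdd (l j)) := by
    intro l
    simp [Λ, zpowersHom_apply]
  have hθ : ∀ i j, (θ (w j)).2 i = expHom A n i (w j) := by
    intro i j
    have : ((Pi.evalMonoidHom (fun _ => Multiplicative ℤ) i).comp
        ((MonoidHom.snd A (Fin n → Multiplicative ℤ)).comp θ)) = expHom A n i := by
      apply Coprod.hom_ext
      · ext a
        simp [θ, expHom]
      · ext k
        simp only [MonoidHom.comp_apply, θ, expHom, Coprod.lift_apply_inr, FreeGroup.lift_apply_of,
          MonoidHom.coe_snd, Pi.evalMonoidHom_apply, Pi.mulSingle_apply, eq_comm]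
    exact DFunLike.congr_fun this (w j)
  refine ⟨(A × (Fin n → Multiplicative ℤ)) ⧸ Λ.range, inferInstance,
    (QuotientGroup.mk' Λ.range).comp (MonoidHom.inl _ _),
    fun k => QuotientGroup.mk' Λ.range
      ((1 : A), Pi.mulSingle k (Multiplicative.ofAdd (1 : ℤ))), ?_, ?_⟩
  · rw [injective_iff_map_eq_one]
    intro a ha
    rw [MonoidHom.comp_apply, QuotientGroup.mk'_apply, QuotientGroup.eq_one_iff] at ha
    obtain ⟨l, hl⟩ := ha
    have hl0 : (fun j => Multiplicative.toAdd (l j)) = 0 := by
      apply Matrix.eq_zero_of_mulVec_eq_zero hdet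
      funext i
      have h1 : ((Λ l).2 i) = 1 := by rw [hl]; rfl
      rw [hΛ] at h1
      have h2 : (∏ j, θ (w j) ^ Multiplicative.toAdd (l j)).2 i =
          ∏ j, (expHom A n i (w j)) ^ Multiplicative.toAdd (l j) := by
        rw [Prod.snd_prod, Finset.prod_apply]
        refine Finset.prod_congr rfl (fun j _ => ?_)
        rw [Prod.pow_snd, Pi.pow_apply, hθ]
      rw [h2] at h1
      have h3 := congrArg Multiplicative.toAdd h1
      rw [toAdd_prod, toAdd_one] at h3
      simp only [Matrix.mulVec, dotProduct, Matrix.of_apply, Pi.zero_apply]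
      rw [← h3]
      refine Finset.sum_congr rfl (fun j _ => ?_)
      rw [toAdd_zpow, smul_eq_mul, mul_comm]
    have hl1 : l = 1 := by
      funext j
      have := congrFun hl0 j
      exact this
    rw [hl1, map_one] at hl
    exact (congrArg Prod.fst hl).symm
  · intro j
    have h1 : Coprod.lift ((QuotientGroup.mk' Λ.range).comp (MonoidHom.inl _ _))
        (FreeGroup.lift fun k => QuotientGroup.mk' Λ.range
          ((1 : A), Pi.mulSingle k (Multiplicative.ofAdd (1 : ℤ)))) =
        (QuotientGroup.mk' Λ.range).comp θ := by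
      apply Coprod.hom_ext
      · ext a
        simp [θ]
      · ext k
        simp [θ]
    rw [h1, MonoidHom.comp_apply, QuotientGroup.mk'_apply, QuotientGroup.eq_one_iff]
    refine ⟨Pi.mulSingle j (Multiplicative.ofAdd 1), ?_⟩
    rw [hΛ]
    rw [Finset.prod_eq_single j]
    · simp
    · intro b _ hb
      simp [hb]
    · intro h
      exact absurd (Finset.mem_univ _) h

end Abelian

/-- Q1 for systems with commuting coefficients. -/
theorem commuting_coefficients {G : Type u} [Group G] {A : Type u} [CommGroup A] (j : A →* G)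
    {n : ℕ} (w : Fin n → Coprod A (FreeGroup (Fin n)))
    (hdet : (Matrix.of (fun i k : Fin n =>
      Multiplicative.toAdd (expHom A n i (w k)))).det ≠ 0)
    (r : ℕ) (g : Fin r → G)
    (h : ∃ h : Fin r → (Coprod G (FreeGroup (Fin n)) ⧸ Subgroup.normalClosure
          (Set.range (fun k => Coprod.map j (MonoidHom.id _) (w k)))),
      (List.ofFn (fun i => h i *
        QuotientGroup.mk' (Subgroup.normalClosure
          (Set.range (fun k => Coprod.map j (MonoidHom.id _) (w k)))) (Coprod.inl (g i)) *
          (h i)⁻¹)).prod = 1) :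
    ∃ x : Fin r → G, (List.ofFn (fun i => x i * g i * (x i)⁻¹)).prod = 1 := by
  obtain ⟨A', _, ι, τ, hι, hτ⟩ := exists_abelian_solution w hdet
  obtain ⟨κ, hκ⟩ := exists_kk ι hι j
  refine of_solution _ (diag G (A' ⧸ ι.range)) diag_reflecting (fun k => κ (τ k)) ?_ r g h
  intro k
  have h1 : (Coprod.lift (diag G (A' ⧸ ι.range)) (FreeGroup.lift fun k => κ (τ k))).comp
      (Coprod.map j (MonoidHom.id _)) = κ.comp (Coprod.lift ι (FreeGroup.lift τ)) := by
    apply Coprod.hom_ext
    · ext a
      · simp [hκ]
      · simp [hκ]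
    · ext k
      · simp
      · simp
  have h2 := DFunLike.congr_fun h1 (w k)
  rw [MonoidHom.comp_apply, MonoidHom.comp_apply, hτ k, map_one] at h2
  exact h2

end Pool.Agent.H26.Kervaire
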