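import Pool.Agent.H26.Kervaire

set_option autoImplicit false

universe u v

namespace Pool.Agent.H26.Kervaire

open Monoid

/-- Nested cancellation: `∏_{i=0}^{k} a_i a_{k-i}⁻¹ = 1`. -/
lemma nested_prod {K : Type u} [Group K] : ∀ (k : ℕ) (a : ℕ → K),
    ((List.range (k + 1)).map (fun i => a i * (a (k - i))⁻¹)).prod = 1
  | 0, a => by simp
  | 1, a => by simp [List.range_succ]
  | (k + 2), a => by
    have ih := nested_prod k (fun i => a (i + 1))
    rw [List.range_succ, List.range_succ_eq_map, List.map_append, List.prod_append,
      List.map_cons, List.prod_cons, List.map_map]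
    have h1 : (List.range (k + 1)).map ((fun i => a i * (a (k + 2 - i))⁻¹) ∘ Nat.succ) =
        (List.range (k + 1)).map (fun i => a (i + 1) * (a (k - i + 1))⁻¹) := by
      apply List.map_congr_left
      intro i hi
      rw [List.mem_range] at hi
      show a (i + 1) * (a (k + 2 - (i + 1)))⁻¹ = _
      have : k + 2 - (i + 1) = k - i + 1 := by omega
      rw [this]
    rw [h1, ih]
    simp

/-- The cyclic version. -/
lemma cyclic_prod {K : Type u} [Group K] (m k : ℕ) (hk : k < m) (a b : ℕ → K)
    (h1 : ∀ i, i ≤ k → b i = (a (k - i))⁻¹)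
    (h2 : ∀ i, k < i → i < m → b i = (a (k + m - i))⁻¹) :
    ((List.range m).map (fun i => a i * b i)).prod = 1 := by
  obtain ⟨l, rfl⟩ : ∃ l, m = (k + 1) + l := ⟨m - (k + 1), by omega⟩
  rw [List.range_add, List.map_append, List.prod_append, List.map_map]
  have e1 : (List.range (k + 1)).map (fun i => a i * b i) =
      (List.range (k + 1)).map (fun i => a i * (a (k - i))⁻¹) := by
    apply List.map_congr_left
    intro i hi
    rw [List.mem_range] at hi
    rw [h1 i (by omega)]
  rw [e1, nested_prod k a, one_mul]
  rcases l with _ | l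
  · simp
  · have e2 : (List.range (l + 1)).map ((fun i => a i * b i) ∘ (fun x => k + 1 + x)) =
        (List.range (l + 1)).map
          (fun i => a (k + 1 + i) * (a (k + 1 + (l - i)))⁻¹) := by
      apply List.map_congr_left
      intro i hi
      rw [List.mem_range] at hi
      show a (k + 1 + i) * b (k + 1 + i) = _
      rw [h2 (k + 1 + i) (by omega) (by omega)]
      have : k + (k + 1 + (l + 1)) - (k + 1 + i) = k + 1 + (l - i) := by omega
      rw [this]
    rw [e2]
    exact nested_prod l (fun i => a (k + 1 + i))

section

variable {K : Type u} [Group K] {Q : Type v} [Group Q]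

/-- Products of factors `a_i t` in the wreath product over the constants. -/
lemma prod_diag_mul (t : (Q → K) ⋊[transAut K Q] Q) (L : List K) :
    ((L.map (fun a => diag K Q a * t)).prod).right = t.right ^ L.length ∧
    ∀ x : Q, ((L.map (fun a => diag K Q a * t)).prod).left x =
      ((List.range L.length).map (fun i => (L.getD i 1) * t.left (x * t.right ^ i))).prod := by
  induction L with
  | nil => simp
  | cons a L ih =>
    obtain ⟨ih1, ih2⟩ := ih
    rw [List.map_cons, List.prod_cons]
    constructor
    · rw [SemidirectProduct.mul_right, ih1, SemidirectProduct.mul_right]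
      show 1 * t.right * _ = _
      rw [one_mul, List.length_cons, pow_succ']
    · intro x
      rw [SemidirectProduct.mul_left, SemidirectProduct.mul_left, SemidirectProduct.mul_right]
      show a * t.left (x * 1) * ((L.map (fun a => diag K Q a * t)).prod).left
        (x * (1 * t.right)) = _
      rw [mul_one, one_mul, ih2, List.length_cons, List.range_succ_eq_map, List.map_cons,
        List.prod_cons, List.map_map]
      congr 1
      · simp
      · congr 1
        apply List.map_congr_left
        intro i _
        show _ = (a :: L).getD (i + 1) 1 * t.left (x * t.right ^ (i + 1))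
        rw [List.getD_cons_succ, pow_succ', mul_assoc]

end

/-- **Levin's solution** of a positive equation, over the constants of `K ≀ ℤ/m`. -/
lemma levin {K : Type u} [Group K] (L : List K) (hL : L ≠ []) :
    ∃ t : ((Multiplicative (ZMod L.length)) → K) ⋊[transAut K (Multiplicative (ZMod L.length))]
      (Multiplicative (ZMod L.length)),
      (L.map (fun a => diag K (Multiplicative (ZMod L.length)) a * t)).prod = 1 := by
  have hm : 0 < L.length := List.length_pos_iff.2 hL
  have : NeZero L.length := ⟨hm.ne'⟩
  set m := L.length with hmdef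
  let t : ((Multiplicative (ZMod m)) → K) ⋊[transAut K (Multiplicative (ZMod m))]
      (Multiplicative (ZMod m)) :=
    ⟨fun x => (L.getD (-(Multiplicative.toAdd x)).val 1)⁻¹, Multiplicative.ofAdd 1⟩
  refine ⟨t, ?_⟩
  obtain ⟨h1, h2⟩ := prod_diag_mul t L
  apply SemidirectProduct.ext
  · funext x
    rw [h2]
    show _ = (1 : K)
    apply cyclic_prod L.length ((-(Multiplicative.toAdd x) : ZMod m).val) (ZMod.val_lt _)
      (fun i => L.getD i 1) (fun i => t.left (x * t.right ^ i))
    · intro i hi
      show (L.getD (-(Multiplicative.toAdd (x * (Multiplicative.ofAdd (1 : ZMod m)) ^ i))).val 1)⁻¹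
        = _
      congr 2
      rw [toAdd_mul, toAdd_pow, toAdd_ofAdd, neg_add, ← sub_eq_add_neg, nsmul_eq_mul, mul_one]
      have : ((i : ℕ) : ZMod m).val = i := ZMod.val_natCast_of_lt (lt_of_le_of_lt hi (ZMod.val_lt _))
      rw [ZMod.val_sub (by rw [this]; exact hi), this]
    · intro i hi hi'
      show (L.getD (-(Multiplicative.toAdd (x * (Multiplicative.ofAdd (1 : ZMod m)) ^ i))).val 1)⁻¹
        = _
      congr 2
      rw [toAdd_mul, toAdd_pow, toAdd_ofAdd, neg_add, ← sub_eq_add_neg, nsmul_eq_mul, mul_one]
      have hv : ((i : ℕ) : ZMod m).val = i := ZMod.val_natCast_of_lt hi'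
      set y : ZMod m := -(Multiplicative.toAdd x) with hy
      have hy1 : y.val < m := ZMod.val_lt _
      have : (y - (i : ZMod m)) = (((y.val + m - i : ℕ)) : ZMod m) := by
        rw [Nat.cast_sub (by omega), Nat.cast_add, ZMod.natCast_zmod_val, ZMod.natCast_self,
          add_zero]
      rw [this, ZMod.val_natCast_of_lt (by omega)]
  · rw [h1]
    show (Multiplicative.ofAdd (1 : ZMod m)) ^ L.length = 1
    rw [← ofAdd_nsmul, nsmul_eq_mul, mul_one]
    show Multiplicative.ofAdd ((m : ℕ) : ZMod m) = 1
    rw [ZMod.natCast_self]
    rfl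

/-- Composition of reflecting homomorphisms. -/
lemma Reflecting.comp {G : Type u} [Group G] {W : Type v} [Group W] {W' : Type v} [Group W']
    {f : G →* W} {f' : W →* W'} (h' : Reflecting f') (h : Reflecting f) :
    Reflecting (f'.comp f) := fun r g hk => h r g (h' r (fun i => f (g i)) hk)

end Pool.Agent.H26.Kervaire
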