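import Pool.Agent.H26.Kervaire

set_option autoImplicit false

universe u v

namespace Pool.Agent.H26.Kervaire

/-- Data of an equation of weight two `t_k^ε a t_l^δ b = 1`. -/
structure Eqn (V : Type) (G : Type u) where
  k : V
  l : V
  ε : ℤˣ
  δ : ℤˣ
  a : G
  b : G

namespace Eqn

variable {V : Type} [DecidableEq V] {G : Type u} [Group G] {W : Type v} [Group W]

/-- The equation holds at `T`. -/
def Holds (e : Eqn V G) (d : G →* W) (T : V → W) : Prop :=
  T e.k ^ (e.ε : ℤ) * d e.a * T e.l ^ (e.δ : ℤ) * d e.b = 1

/-- Exponent sums. -/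
def row (e : Eqn V G) (v : V) : ℤ :=
  (if e.k = v then (e.ε : ℤ) else 0) + (if e.l = v then (e.δ : ℤ) else 0)

/-- Substitute one factor: new variable. -/
def fv (e₀ : Eqn V G) (k : V) : V := if k = e₀.k then e₀.l else k

/-- Substitute one factor: new sign. -/
def fs (e₀ : Eqn V G) (k : V) (ε : ℤˣ) : ℤˣ := if k = e₀.k then -(e₀.δ * e₀.ε * ε) else ε

/-- Substitute one factor: left coefficient. -/
def fl (e₀ : Eqn V G) (k : V) (ε : ℤˣ) : G :=
  if k = e₀.k then (if ε = e₀.ε then e₀.b⁻¹ else e₀.a) else 1

/-- Substitute one factor: right coefficient. -/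
def fr (e₀ : Eqn V G) (k : V) (ε : ℤˣ) : G :=
  if k = e₀.k then (if ε = e₀.ε then e₀.a⁻¹ else e₀.b) else 1

/-- Substitute the variable `e₀.k`, solved from `e₀`, in `e`. -/
def subst (e₀ e : Eqn V G) : Eqn V G where
  k := fv e₀ e.k
  l := fv e₀ e.l
  ε := fs e₀ e.k e.ε
  δ := fs e₀ e.l e.δ
  a := fr e₀ e.k e.ε * e.a * fl e₀ e.l e.δ
  b := fr e₀ e.l e.δ * e.b * fl e₀ e.k e.ε

/-- The multiple of the row of `e₀` subtracted. -/
def cf (e₀ e : Eqn V G) : ℤ :=
  (if e.k = e₀.k then ((e₀.ε * e.ε : ℤˣ) : ℤ) else 0) +
    (if e.l = e₀.k then ((e₀.ε * e.δ : ℤˣ) : ℤ) else 0)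

lemma units_mul_self (x : ℤˣ) : (x : ℤ) * x = 1 := by
  rcases Int.units_eq_one_or x with h | h <;> simp [h]

lemma row_aux (e₀ : Eqn V G) (k : V) (ε : ℤˣ) (v : V) :
    (if fv e₀ k = v then ((fs e₀ k ε : ℤˣ) : ℤ) else 0) =
      (if k = v then (ε : ℤ) else 0) -
        (if k = e₀.k then ((e₀.ε * ε : ℤˣ) : ℤ) else 0) * e₀.row v := by
  unfold fv fs row
  by_cases hk : k = e₀.k
  · subst hk
    simp only [if_true]
    by_cases h1 : e₀.k = v <;> by_cases h2 : e₀.l = v <;>
      rcases Int.units_eq_one_or e₀.ε with h3 | h3 <;>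
      rcases Int.units_eq_one_or e₀.δ with h4 | h4 <;>
      rcases Int.units_eq_one_or ε with h5 | h5 <;>
      simp [h1, h2, h3, h4, h5]
  · simp [hk]

lemma row_subst (e₀ e : Eqn V G) (v : V) :
    (subst e₀ e).row v = e.row v - cf e₀ e * e₀.row v := by
  have h1 := row_aux e₀ e.k e.ε v
  have h2 := row_aux e₀ e.l e.δ v
  show (if fv e₀ e.k = v then ((fs e₀ e.k e.ε : ℤˣ) : ℤ) else 0) +
    (if fv e₀ e.l = v then ((fs e₀ e.l e.δ : ℤˣ) : ℤ) else 0) = _
  rw [h1, h2]
  unfold cf
  conv_rhs => rw [row]
  ring

/-- The value of the eliminated variable. -/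
def val (e₀ : Eqn V G) (d : G →* W) (T : V → W) : W :=
  ((d e₀.b)⁻¹ * (T e₀.l ^ (e₀.δ : ℤ))⁻¹ * (d e₀.a)⁻¹) ^ (e₀.ε : ℤ)

lemma factor_eq (e₀ : Eqn V G) (d : G →* W) (T : V → W) (k : V) (ε : ℤˣ) :
    (Function.update T e₀.k (e₀.val d T) k) ^ (ε : ℤ) =
      d (fl e₀ k ε) * T (fv e₀ k) ^ ((fs e₀ k ε : ℤˣ) : ℤ) * d (fr e₀ k ε) := by
  by_cases hk : k = e₀.k
  · subst hk
    rw [Function.update_self]
    unfold fl fr fs fv val
    rcases Int.units_eq_one_or e₀.ε with h3 | h3 <;>
      rcases Int.units_eq_one_or e₀.δ with h4 | h4 <;>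
      rcases Int.units_eq_one_or ε with h5 | h5 <;>
      simp [h3, h4, h5, mul_assoc]
  · rw [Function.update_of_ne hk]
    simp [fl, fr, fs, fv, hk]

lemma holds_of_subst (e₀ e : Eqn V G) (d : G →* W) (T : V → W)
    (h : (subst e₀ e).Holds d T) : e.Holds d (Function.update T e₀.k (e₀.val d T)) := by
  unfold Holds at h ⊢
  rw [factor_eq, factor_eq]
  simp only [subst, map_mul] at h
  have h' := congrArg (fun x => d (fl e₀ e.k e.ε) * x * (d (fl e₀ e.k e.ε))⁻¹) h
  simp only [mul_one, mul_inv_cancel] at h'
  rw [← h']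
  group

lemma holds_self (e₀ : Eqn V G) (hne : e₀.k ≠ e₀.l) (d : G →* W) (T : V → W) :
    e₀.Holds d (Function.update T e₀.k (e₀.val d T)) := by
  unfold Holds
  rw [Function.update_self, Function.update_of_ne hne.symm]
  have h1 : (e₀.val d T) ^ (e₀.ε : ℤ) =
      (d e₀.b)⁻¹ * (T e₀.l ^ (e₀.δ : ℤ))⁻¹ * (d e₀.a)⁻¹ := by
    unfold val
    rw [← zpow_mul, units_mul_self, zpow_one]
  rw [h1]
  group

end Eqn

/-- Solvability of independent systems of weight two in a group in which the equations
`s = g s⁻¹ g'` over `G` are solvable. -/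
lemma exists_solution_weight_two {V : Type} [Fintype V] [DecidableEq V] {G : Type u} [Group G]
    {W : Type v} [Group W] (d : G →* W)
    (hS : ∀ g g' : G, ∃ s : W, s = d g * s⁻¹ * d g') :
    ∀ (m : ℕ) (E : Type) [Fintype E] [DecidableEq E], Fintype.card E = m →
      ∀ sys : E → Eqn V G,
        (∀ c : E → ℤ, (∀ v, ∑ e, c e * (sys e).row v = 0) → c = 0) →
        ∃ T : V → W, ∀ e, (sys e).Holds d T := by
  classical
  intro m
  induction m with
  | zero =>
    intro E _ _ hE sys _
    have : IsEmpty E := Fintype.card_eq_zero_iff.1 hE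
    exact ⟨fun _ => 1, fun e => isEmptyElim e⟩
  | succ m ih =>
    intro E _ _ hE sys hind
    by_cases hex : ∃ e₀, (sys e₀).k ≠ (sys e₀).l
    · obtain ⟨e₀, he₀⟩ := hex
      have hcard : Fintype.card {e // e ≠ e₀} = m := by
        rw [Fintype.card_subtype_compl, hE]
        simp
      obtain ⟨T, hT⟩ := ih {e // e ≠ e₀} hcard (fun e => (sys e₀).subst (sys e)) (by
        intro c hc
        let c' : E → ℤ := fun e => if h : e ≠ e₀ then c ⟨e, h⟩
          else -∑ e : {e // e ≠ e₀}, c e * (sys e₀).cf (sys e)
        have h0 : c' = 0 := by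
          apply hind
          intro v
          have h1 := hc v
          simp only [Eqn.row_subst] at h1
          have h2 : ∑ e, c' e * (sys e).row v =
              c' e₀ * (sys e₀).row v + ∑ e : {e // e ≠ e₀}, c' e * (sys e).row v := by
            rw [← Finset.add_sum_erase _ _ (Finset.mem_univ e₀)]
            congr 1
            rw [Finset.sum_subtype (Finset.univ.erase e₀) (p := fun e => e ≠ e₀)]
            intro x
            simp
          rw [h2]
          have h3 : c' e₀ = -∑ e : {e // e ≠ e₀}, c e * (sys e₀).cf (sys e) := by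
            simp [c']
          have h4 : ∀ e : {e // e ≠ e₀}, c' e = c e := by
            intro e
            simp [c', e.2]
          simp only [h3, h4]
          have h5 : ∑ e : {e // e ≠ e₀}, c e * ((sys e).row v -
              (sys e₀).cf (sys e) * (sys e₀).row v) =
              ∑ e : {e // e ≠ e₀}, c e * (sys e).row v -
              (∑ e : {e // e ≠ e₀}, c e * (sys e₀).cf (sys e)) * (sys e₀).row v := by
            rw [Finset.sum_mul, ← Finset.sum_sub_distrib]
            refine Finset.sum_congr rfl (fun e _ => ?_)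
            ring
          rw [h5] at h1
          linarith
        funext e
        have := congrFun h0 e
        simpa [c', e.2] using this)
      refine ⟨Function.update T (sys e₀).k ((sys e₀).val d T), fun e => ?_⟩
      by_cases he : e = e₀
      · rw [he]
        exact (sys e₀).holds_self he₀ d T
      · exact (sys e₀).holds_of_subst (sys e) d T (hT ⟨e, he⟩)
    · push Not at hex
      -- every equation involves a single variable
      have hrow : ∀ e v, (sys e).row v =
          if (sys e).k = v then ((sys e).ε : ℤ) + ((sys e).δ : ℤ) else 0 := by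
        intro e v
        unfold Eqn.row
        rw [← hex e]
        split_ifs <;> simp
      have hsign : ∀ e, (sys e).ε = (sys e).δ := by
        intro e
        by_contra hne
        have hz : ((sys e).ε : ℤ) + ((sys e).δ : ℤ) = 0 := by
          rcases Int.units_eq_one_or (sys e).ε with h3 | h3 <;>
            rcases Int.units_eq_one_or (sys e).δ with h4 | h4 <;>
            simp_all
        have h0 := hind (fun e' => if e' = e then 1 else 0) (by
          intro v
          refine Finset.sum_eq_zero (fun x _ => ?_)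
          by_cases hx : x = e
          · subst hx
            rw [hrow]
            simp [hz]
          · simp [hx])
        have := congrFun h0 e
        simp at this
      have hinj : ∀ e e', (sys e).k = (sys e').k → e = e' := by
        intro e e' hk
        by_contra hne
        have h0 := hind (fun x => if x = e then ((sys e').ε : ℤ) else
            if x = e' then -((sys e).ε : ℤ) else 0) (by
          intro v
          have h1 : ∀ x, (if x = e then ((sys e').ε : ℤ) else
            if x = e' then -((sys e).ε : ℤ) else 0) * (sys x).row v =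
            (if x = e then ((sys e').ε : ℤ) * (sys e).row v else 0) +
            (if x = e' then -((sys e).ε : ℤ) * (sys e').row v else 0) := by
            intro x
            by_cases h1 : x = e
            · subst h1
              simp [hne]
            · by_cases h2 : x = e'
              · subst h2
                simp [h1]
              · simp [h1, h2]
          simp only [h1]
          rw [Finset.sum_add_distrib]
          simp only [Finset.sum_ite_eq', Finset.mem_univ, if_true]
          rw [hrow, hrow, hk, ← hsign, ← hsign]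
          split_ifs <;> ring)
        have := congrFun h0 e
        simp at this
      choose s hs using fun e => hS (sys e).b⁻¹ (sys e).a⁻¹
      refine ⟨fun v => if h : ∃ e, (sys e).k = v then (s h.choose) ^ ((sys h.choose).ε : ℤ) else 1,
        fun e => ?_⟩
      have hv : ∃ e', (sys e').k = (sys e).k := ⟨e, rfl⟩
      have hch : hv.choose = e := hinj _ _ hv.choose_spec
      unfold Eqn.Holds
      rw [← hex e, ← hsign e]
      simp only [dif_pos hv, hch]
      rw [← zpow_mul, Eqn.units_mul_self, zpow_one]
      have h1 := hs e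
      rw [map_inv, map_inv] at h1
      nth_rewrite 1 [h1]
      group

end Pool.Agent.H26.Kervaire
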